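import Pool.Agent.H579.R.Dsp5R
import Pool.Agent.H579.R.Reg
import Pool.Graph.R_pool_sql_team_seeded_2aa45f1a.Q234.FV
import Pool.Graph.R_pool_sql_team_seeded_2aa45f1a.Q234.TQ

/-!
# Four squares: `p + h_0` and `p - 2 + h_1` prime for values `p` of `x² + 3 y² + 5 z² + 7 w²`, for almost all pairs of
# shifts in the residue classes of moduli up to `n ^ (2 / 3 - ρ)`

Q1 asks for a representation `n = x² + y² + z² + w²` of every odd `n` for which `p = x² + 3 y² + 5 z² + 7 w²` and
`p - 2` are both prime. Let `Val n` be the set of the values of `p`, and `N = 7 n` the largest possible value. It is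
shown for all odd `n ≤ X` with at most `X / log ^ A X` exceptions that `Val n` has at least `n / log ^ (6 A + 40) n`
elements, and that for EVERY set `V` of values `p` (for instance all of them, or the prime ones) the number of the
`p ∈ V` for which `p + h_0` and `p - 2 + h_1` are both prime is the expected one for almost all pairs `(h_0, h_1)` of
shifts taken from arbitrary residue classes `h_i ≡ a_i (mod q_i)`, where the moduli `q_0`, `q_1` may be as large as
`N ^ (2 / 3 - ρ)`; then there are only `N ^ (1 / 3 + ρ)` possible values for each shift. If the moduli are divisible by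
all primes `≤ w` the expected number is

  `q_0 / φ(q_0) * q_1 / φ(q_1) * #{p ∈ V : (p + a_0, q_0) = 1, (p - 2 + a_1, q_1) = 1} / log ^ 2 N`

and up to an error of `η` times this expression for `Val n`, without the two conditions, it is correct with the
exception of at most `C log log N / (η ^ 2 w)` times the expected number of pairs of shifts. The moduli have to be
regular: not divisible by a member of a set `D` of at most `log ^ c N` integers, the RADICALS of which are larger than
any given power of `log N`. There is NO condition on moduli with a radical `≤ log ^ B N`, for instance on the powers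
`≤ N ^ (2 / 3 - ρ)` of the product of the primes up to `K log log N`.

Proof. The correlation of `Λ - (sieve model)` with an arbitrary bounded function, along an arbitrary injective sequence,
is small for almost all shifts in a class (mean squares over characters, zero density estimates of the library, and
Postnikov's formula with Vinogradov's method for the conductors with a small radical, `H567/PP`); the
correlations of the sieve model with itself are computed in mean square over the shifts in the class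
(`Pool.Agent.H579.G.Dsp1` to `Dsp5`). The lower bound for the number of values is `val_card` of the library.
-/

set_option autoImplicit false

open Finset

namespace Pool.Agent.Results.MP_0ad054_nt.ClassesOfLargeModuli

/-- the radical of `d`: the product of the primes dividing `d` -/
def rad (d : ℕ) : ℕ := ∏ p ∈ d.primeFactors, p

open Classical in
/-- The different values `p = x² + 3 y² + 5 z² + 7 w²` at the representations `n = x² + y² + z² + w²` of `n` as a sum of
four squares of integers. -/
noncomputable def Val (n : ℕ) : Finset ℕ := (range (7 * n + 1)).filter (fun p => ∃ x y z w : ℤ,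
  (n : ℤ) = x ^ 2 + y ^ 2 + z ^ 2 + w ^ 2 ∧ (p : ℤ) = x ^ 2 + 3 * y ^ 2 + 5 * z ^ 2 + 7 * w ^ 2)

open Classical in
/-- The `p` in `V` for which `p + h_0` and `p - 2 + h_1` are prime. -/
noncomputable def good (V : Finset ℕ) (h : Fin 2 → ℕ) : Finset ℕ :=
  V.filter (fun p => (p + h 0).Prime ∧ (p - 2 + h 1).Prime)

open Classical in
/-- The `p` in `V` for which `p + a_0` is prime to `q_0` and `p - 2 + a_1` is prime to `q_1`. -/
noncomputable def loc (V : Finset ℕ) (q a : Fin 2 → ℕ) : Finset ℕ :=
  V.filter (fun p => (p + a 0).Coprime (q 0) ∧ (p - 2 + a 1).Coprime (q 1))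

/-- `q_0 / φ(q_0) * q_1 / φ(q_1)` -/
noncomputable def dens (q : Fin 2 → ℕ) : ℝ := (q 0 : ℝ) / Nat.totient (q 0) * ((q 1 : ℝ) / Nat.totient (q 1))

open Classical in
/-- The pairs of shifts `1 ≤ h_i ≤ N`, `h_i ≡ a_i (mod q_i)`, for which the number of the `p ∈ V` with `p + h_0` and
`p - 2 + h_1` prime differs from the expected number by more than `η * dens q * Y / log ^ 2 N`. -/
noncomputable def exceptional (η Y : ℝ) (N : ℕ) (V : Finset ℕ) (q a : Fin 2 → ℕ) : Finset (Fin 2 → ℕ) :=
  (Fintype.piFinset fun _ => Icc 1 N).filter (fun h => (∀ i, h i ≡ a i [MOD q i]) ∧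
    η * dens q * (Y / Real.log N ^ 2) <
      |((good V h).card : ℝ) - dens q * ((loc V q a).card / Real.log N ^ 2)|)

open Classical in
/-- (1) For every set `V` of values and almost all pairs of shifts in every pair of residue classes of regular moduli. -/
def Holds (C ρ : ℝ) (A c B n : ℕ) : Prop :=
  (n : ℝ) ≤ (Val n).card * Real.log n ^ (6 * A + 46) ∧
  ∃ D : Finset ℕ, (D.card : ℝ) ≤ Real.log (7 * n : ℕ) ^ c ∧ (∀ d ∈ D, Real.log (7 * n : ℕ) ^ B < (rad d : ℝ)) ∧
    ∀ q : Fin 2 → ℕ, (∀ i, 1 ≤ q i ∧ (q i : ℝ) ≤ ((7 * n : ℕ) : ℝ) ^ (2 / 3 - ρ) ∧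
      ((rad (q i) : ℝ) ≤ Real.log (7 * n : ℕ) ^ B ∨ ∀ d ∈ D, ¬ d ∣ q i)) →
    ∀ w : ℕ, 1 ≤ w → (w : ℝ) ≤ Real.log (7 * n : ℕ) → (∀ l : ℕ, l.Prime → l ≤ w → ∀ i, l ∣ q i) →
    ∀ a : Fin 2 → ℕ, ∀ V ⊆ Val n, ∀ η : ℝ, 0 < η → η ≤ 1 →
      ((exceptional η (Val n).card (7 * n) V q a).card : ℝ) ≤
        C * Real.log (Real.log (7 * n : ℕ)) / (η ^ 2 * w) * (((7 * n : ℕ) : ℝ) / q 0 * (((7 * n : ℕ) : ℝ) / q 1))

open Classical in
theorem Val_le {n p : ℕ} (h : p ∈ Val n) : n ≤ p ∧ p ≤ 7 * n := by
  unfold Val at h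
  rw [mem_filter, mem_range] at h
  obtain ⟨h1, x, y, z, w, h2, h3⟩ := h
  refine ⟨?_, by omega⟩
  have : (n : ℤ) ≤ p := by
    rw [h2, h3]
    nlinarith [sq_nonneg x, sq_nonneg y, sq_nonneg z, sq_nonneg w]
  exact_mod_cast this

/-- the two sequences -/
def F : Fin 2 → ℕ → ℕ := ![fun p => p, fun p => p - 2]

open Pool.Agent.H579.G in
theorem exc_eq (η Y : ℝ) (N : ℕ) (V : Finset ℕ) (q a : Fin 2 → ℕ) : excN η Y N V F q a = exceptional η Y N V q a := by
  classical
  have e1 : den q = dens q := by
    unfold den dens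
    rw [Fin.prod_univ_two]
  have e2 : ∀ h : Fin 2 → ℕ, prN V F h = good V h := by
    intro h
    unfold prN good
    refine filter_congr fun p _ => ?_
    rw [Fin.forall_fin_two]
    rfl
  have e3 : cpN V F q a = loc V q a := by
    unfold cpN loc
    refine filter_congr fun p _ => ?_
    rw [Fin.forall_fin_two]
    rfl
  unfold excN exceptional
  simp only [e1, e2, e3]

/-- **Almost all odd `n`, all regular moduli, all residue classes, every set of values, almost all pairs of shifts.**
(1) For every `A` and `ρ > 0` there are `C` and `c` such that for all `B` and all large `X` all odd `n ≤ X` with at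
most `X / log ^ A X` exceptions have the property `Holds`. (2) For all `n`, `q` and `V` the sum of `#(loc V q a)` over the
`a` with `1 ≤ a_i ≤ q_i` is `φ(q_0) φ(q_1) #V`, so that the average over all classes of the main term is `#V / log ^ 2 N`. -/
theorem result : (∀ (A : ℕ) (ρ : ℝ), 0 < ρ → ∃ (C : ℝ) (c : ℕ), ∀ B : ℕ, ∃ X₀ : ℕ, ∀ X : ℕ, X₀ ≤ X →
      ∃ Bad : Finset ℕ, (Bad.card : ℝ) ≤ X / Real.log X ^ A ∧
        ∀ n ∈ Icc 1 X, Odd n → n ∉ Bad → Holds C ρ A c B n) ∧
    (∀ (V : Finset ℕ) (q : Fin 2 → ℕ), ∑ a ∈ Fintype.piFinset (fun i : Fin 2 => Icc 1 (q i)), (loc V q a).card =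
      (q 0).totient * (q 1).totient * V.card) := by
  classical
  refine ⟨?_, ?_⟩
  · intro A ρ hρ
    -- one more power of the logarithm in the exceptional set takes care of the small `n`
    obtain ⟨C, hC, h1⟩ := Pool.Agent.H579.R.sparse_natR 2 (6 * A + 47) (by norm_num)
    obtain ⟨c, h2⟩ := h1 ρ hρ
    refine ⟨C, c, fun B => ?_⟩
    obtain ⟨N₀, h3⟩ := h2 B
    obtain ⟨n1, h4⟩ := Filter.eventually_atTop.1 (Pool.Agent.Y614.GJ.Core.ev_log 1 (s := 1) (by norm_num) (7 : ℝ))
    obtain ⟨N₁, hN₁⟩ : ∃ N₁, N₁ = N₀ + n1 + 3 := ⟨_, rfl⟩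
    obtain ⟨n2, h5⟩ := Pool.Agent.Q234.FV.val_card (A + 1)
    obtain ⟨n3, h6⟩ := Pool.Agent.H373R2.T7.ev_log' (A + 1) N₁
    refine ⟨n1 + n2 + n3 + 1, fun X hX => ?_⟩
    have hX1 : (1 : ℝ) ≤ X := by exact_mod_cast (by omega : 1 ≤ X)
    have hLX : 7 ≤ Real.log X := (h4 X (by omega)).1
    refine ⟨(Icc 1 X).filter (fun n : ℕ => Odd n ∧
      ¬ ((n : ℝ) ≤ (Pool.Agent.Q234.FV.Val n).card * Real.log n ^ (6 * (A + 1) + 40))) ∪ Icc 1 N₁, ?_, ?_⟩
    · have e1 := h5 X (by omega)
      have e2 : (((Icc 1 X).filter (fun n : ℕ => Odd n ∧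
          ¬ ((n : ℝ) ≤ (Pool.Agent.Q234.FV.Val n).card * Real.log n ^ (6 * (A + 1) + 40))) ∪ Icc 1 N₁).card : ℝ) ≤
          (((Icc 1 X).filter (fun n : ℕ => Odd n ∧
          ¬ ((n : ℝ) ≤ (Pool.Agent.Q234.FV.Val n).card * Real.log n ^ (6 * (A + 1) + 40)))).card : ℝ) + N₁ := by
        have e3 := card_union_le ((Icc 1 X).filter (fun n : ℕ => Odd n ∧
          ¬ ((n : ℝ) ≤ (Pool.Agent.Q234.FV.Val n).card * Real.log n ^ (6 * (A + 1) + 40)))) (Icc 1 N₁)
        rw [Nat.card_Icc, Nat.add_sub_cancel] at e3
        exact_mod_cast e3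
      have e4 : (N₁ : ℝ) ≤ X / Real.log X ^ (A + 1) := by
        have e5 := h6 X (by omega)
        rw [le_div_iff₀ (by positivity)]
        refine e5.trans ?_
        rw [Real.sqrt_le_left (by linarith)]
        nlinarith
      have e6 : (X : ℝ) / Real.log X ^ (A + 1) = X / Real.log X ^ A / Real.log X := by
        rw [pow_succ, div_div]
      have e7 : (X : ℝ) / Real.log X ^ A / Real.log X ≤ X / Real.log X ^ A / 2 :=
        div_le_div_of_nonneg_left (by positivity) (by norm_num) (by linarith)
      linarith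
    · intro n hn hodd hbad
      rw [mem_union, not_or, mem_filter] at hbad
      have hval : (n : ℝ) ≤ (Val n).card * Real.log n ^ (6 * A + 46) := by
        by_contra hcon
        exact hbad.1 ⟨hn, hodd, hcon⟩
      have hnN₁ : N₁ < n := by
        by_contra hcon
        exact hbad.2 (mem_Icc.2 ⟨(mem_Icc.1 hn).1, by omega⟩)
      refine ⟨hval, ?_⟩
      obtain ⟨D, hD1, hD2, hD3⟩ := h3 (7 * n) (by omega)
      refine ⟨D, hD1, hD2, fun q hq w hw1 hwL hwq a V hV η hη0 hη1 => ?_⟩
      have hn0 : (0 : ℝ) < n := by exact_mod_cast (by omega : 0 < n)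
      have hL7 : 7 ≤ Real.log n := (h4 n (by omega)).1
      have hLL : Real.log n ≤ Real.log ((7 * n : ℕ) : ℝ) :=
        Real.log_le_log hn0 (by exact_mod_cast (by omega : n ≤ 7 * n))
      have h7 := hD3 q (fun i => ⟨(hq i).1, (hq i).2.1,
        Pool.Agent.H579.R.reg_of_rad (hq i).1 hD2 (hq i).2.2⟩) w hw1 hwL hwq a V F
        (by
          intro i p hp
          have := Val_le (hV hp)
          fin_cases i
          · exact mem_Icc.2 ⟨by show 1 ≤ p; omega, by show p ≤ 7 * n; omega⟩
          · exact mem_Icc.2 ⟨by show 1 ≤ p - 2; omega, by show p - 2 ≤ 7 * n; omega⟩)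
        (by
          intro i p hp p' hp' e
          have k1 := Val_le (hV (mem_coe.1 hp))
          have k2 := Val_le (hV (mem_coe.1 hp'))
          fin_cases i
          · exact e
          · have e' : p - 2 = p' - 2 := e
            omega)
        (Val n).card (by exact_mod_cast card_le_card hV)
        (by
          have e1 : ((7 * n : ℕ) : ℝ) / Real.log ((7 * n : ℕ) : ℝ) ^ (6 * A + 47) ≤ n / Real.log n ^ (6 * A + 46) := by
            rw [div_le_div_iff₀ (pow_pos (by linarith) _) (pow_pos (by linarith) _), pow_succ (Real.log ((7 * n : ℕ) : ℝ))]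
            have e2 : Real.log n ^ (6 * A + 46) ≤ Real.log ((7 * n : ℕ) : ℝ) ^ (6 * A + 46) :=
              pow_le_pow_left₀ (by linarith) hLL _
            have e3 : ((7 * n : ℕ) : ℝ) = n * 7 := by push_cast; ring
            calc ((7 * n : ℕ) : ℝ) * Real.log n ^ (6 * A + 46) = n * (Real.log n ^ (6 * A + 46) * 7) := by
                  rw [e3]
                  ring
              _ ≤ n * (Real.log ((7 * n : ℕ) : ℝ) ^ (6 * A + 46) * Real.log ((7 * n : ℕ) : ℝ)) := by
                  refine mul_le_mul_of_nonneg_left ?_ hn0.le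
                  exact mul_le_mul e2 (by linarith) (by norm_num) (by positivity)
          refine e1.trans ?_
          rw [div_le_iff₀ (pow_pos (by linarith) _)]
          exact hval)
        η hη0 hη1
      rw [exc_eq, Fin.prod_univ_two] at h7
      exact h7
  · intro V q
    have e1 : ∀ a : Fin 2 → ℕ, (loc V q a).card = ∑ p ∈ V,
        (if (p + a 0).Coprime (q 0) ∧ (p - 2 + a 1).Coprime (q 1) then 1 else 0) := by
      intro a
      unfold loc
      rw [card_filter]
    simp_rw [e1]
    rw [sum_comm]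
    have e2 : ∀ p ∈ V, ∑ a ∈ Fintype.piFinset (fun i : Fin 2 => Icc 1 (q i)),
        (if (p + a 0).Coprime (q 0) ∧ (p - 2 + a 1).Coprime (q 1) then 1 else 0) = (q 0).totient * (q 1).totient := by
      intro p _
      rw [← card_filter]
      have e3 : (Fintype.piFinset (fun i : Fin 2 => Icc 1 (q i))).filter
          (fun a : Fin 2 → ℕ => (p + a 0).Coprime (q 0) ∧ (p - 2 + a 1).Coprime (q 1)) =
          Fintype.piFinset (fun i : Fin 2 => (Icc 1 (q i)).filter
            (fun b => ((![p, p - 2] : Fin 2 → ℕ) i + b).Coprime (q i))) := by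
        ext b
        rw [mem_filter, Fintype.mem_piFinset, Fintype.mem_piFinset]
        simp only [Fin.forall_fin_two, mem_filter]
        exact ⟨fun h => ⟨⟨h.1.1, h.2.1⟩, ⟨h.1.2, h.2.2⟩⟩, fun h => ⟨⟨h.1.1, h.2.1⟩, ⟨h.1.2, h.2.2⟩⟩⟩
      rw [e3, Fintype.card_piFinset, Fin.prod_univ_two, Pool.Agent.Q234.TQ.unit_classes,
        Pool.Agent.Q234.TQ.unit_classes]
    rw [sum_congr rfl e2, sum_const, smul_eq_mul, mul_comm]

end Pool.Agent.Results.MP_0ad054_nt.ClassesOfLargeModuli
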