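import Pool.Agent.H198.LI4.G

/-!
# MP_0ad054_nt: how much independence do the random models of the primes need?

`VV n N`: `N = x² + 3 y² + 5 z² + 7 w²` for integers with `n = x² + y² + z² + w²`. `LimModel μ p κ A`: the random set
`A` has independence of order `κ`: every finite set `T` with at most `κ` elements is contained in `A` with probability
the product of the `p N`, `N ∈ T`. `Rough p`: probabilities which are at least `N ^ (-o(1))` on the `N` all of whose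
prime factors exceed `N ^ δ`; `sieved z c` is one such choice (`min(1, c / log N)` on the `N` without prime factors up
to `z`). `Rich ε n S`: at least `n ^ (1/2 - ε)` different numbers `N` with `VV n N`, `N ∈ S` and `N - 2 ∈ S`.
-/

set_option autoImplicit false

namespace Pool.Agent.Results.MP_0ad054_nt.LimitedIndependence

open MeasureTheory Filter
open Pool.Agent.H198.LI4 (VV Rich Rough sieved)
open Q167.WK (LimModel)

universe u

/-- **Order eight suffices for all large odd `n`, order four for all but `X ^ ε` of the odd `n ≤ X`; under order three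
there may be no representation of any large `n`.** -/
theorem result :
    (∀ (z : ℕ) (c : ℝ), 3 ≤ z → 0 < c → Rough (sieved z c) ∧ (∀ N, 3 ∣ N → sieved z c N = 0) ∧
      ∀ N, sieved z c N ≤ c / Real.log N) ∧
    (∀ p : ℕ → ℝ, Rough p →
      ∀ (Ω : Type u) [MeasurableSpace Ω] (μ : Measure Ω) [IsProbabilityMeasure μ]
        (A : Ω → Set ℕ) (κ : ℕ), LimModel μ p κ A → ∀ ε : ℝ, 0 < ε →
        -- (1) order eight
        (8 ≤ κ → ∀ᵐ ω ∂μ, ∀ᶠ n : ℕ in atTop, Odd n → Rich ε n (A ω)) ∧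
        -- (2) order four
        (4 ≤ κ →
          (∀ᵐ ω ∂μ, ∀ᶠ X : ℕ in atTop,
            ({n : ℕ | n ≤ X ∧ (Odd n ∧ ¬ Rich ε n (A ω))}.ncard : ℝ) ≤ (X : ℝ) ^ ε) ∧
          ∀ (S : Set ℕ) (δ : ℝ), 0 < δ →
            (∀ᶠ X : ℕ in atTop, ({n : ℕ | n ≤ X ∧ n ∈ S}.ncard : ℝ) ≤ (X : ℝ) ^ (1 / 2 - δ)) →
            ∀ᵐ ω ∂μ, ∀ᶠ n : ℕ in atTop, n ∈ S → Odd n → Rich ε n (A ω))) ∧
    -- (3) order three
    ∀ p : ℕ → ℝ, (∀ N, 0 ≤ p N ∧ p N ≤ 1) → (∀ N, 3 ∣ N → p N = 0) →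
      (∃ C : ℝ, ∀ᶠ N : ℕ in atTop, p N ≤ C / Real.log N) →
      ∃ (Ω : Type) (_ : MeasurableSpace Ω) (P : Measure Ω) (_ : IsProbabilityMeasure P)
        (A : Ω → Set ℕ), LimModel P p 3 A ∧
        ∀ᵐ ω ∂P, {N : ℕ | 2 ≤ N ∧ N ∈ A ω ∧ N - 2 ∈ A ω}.Finite ∧
          ∀ᶠ n : ℕ in atTop, ∀ N, VV n N → ¬ (N ∈ A ω ∧ N - 2 ∈ A ω) := by
  classical
  refine ⟨fun z c hz hc => ⟨Pool.Agent.H198.LI4.sieved_rough hc,
    fun N hN => Pool.Agent.H198.LI4.sieved_three hz c hN,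
    Pool.Agent.H198.LI4.sieved_upper z hc⟩, ?_, ?_⟩
  · intro p hp Ω _ μ _ A κ hA ε hε
    refine ⟨fun hκ => Pool.Agent.H198.LI4.all8 hA hp hκ hε, fun hκ => ⟨?_, ?_⟩⟩
    · have h1 := Pool.Agent.H198.LI4.few4 hA hp hκ hε
      filter_upwards [h1] with ω hω
      filter_upwards [hω] with X hX
      rw [Pool.Agent.H198.LI4.ncard_eq X (fun n => Odd n ∧ ¬ Rich ε n (A ω))]
      exact hX
    · intro S δ hδ hS
      refine Pool.Agent.H198.LI4.sparse4 hA hp hκ hδ ?_ hε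
      filter_upwards [hS] with X hX
      rw [Pool.Agent.H198.LI4.ncard_eq X (fun n => n ∈ S)] at hX
      exact hX
  · intro p hp hp3 hpC
    obtain ⟨C, hC⟩ := hpC
    obtain ⟨Ω, i1, P, i2, A, hA, hae⟩ := Pool.Agent.H198.LI4.order_three (fun N => (hp N).1)
      (fun N => (hp N).2) hp3 hC
    refine ⟨Ω, i1, P, i2, A, hA, ?_⟩
    filter_upwards [hae] with ω hω
    exact ⟨hω, Pool.Agent.H198.LI4.none_of_finite hω⟩

end Pool.Agent.Results.MP_0ad054_nt.LimitedIndependence
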