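import Pool.Agent.H563.T4.Four

/-!
# MP_0ad054_nt: all four variables in one thin set

For every `ε > 0` there is a set `X` of natural numbers with `O(t ^ (1/2 + ε))` elements up to `t` such that
every large odd `n` has many representations `n = x² + y² + z² + w²` with `x, y, z, w` in `X` for which both
`p = x² + 3 y² + 5 z² + 7 w²` and `p - 2` have at most `K` prime factors, all larger than `n ^ δ`. For the
`n` congruent to `1` modulo `3` the same holds for a set `X` whose elements are, up to powers of `2`, almost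
primes in the same sense. The exponent `1/2` is optimal.

The proof. By the starting results AlmostPrimePairs and AlmostPrimeVariables there are at least
`n ^ (1 - ε/8)` quadruples with these properties. For the odd `n` between `4 ^ (m - 1)` and `4 ^ m` the four
coordinates are restricted one after the other to sets which contain one element of each of `k` blocks of
length `L`, `k L = 2 ^ m`, `k = 2 ^ (m (1/2 + ε))`; the elements are chosen by the method of conditional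
expectations, with lower bounds for the number of the remaining quadruples of all `n`, and upper bounds for
the number of the remaining quadruples of all `n` with a given third or fourth coordinate.
-/

set_option autoImplicit false

namespace Pool.Agent.Results.MP_0ad054_nt.ThinSetOfVariables

open Pool.Agent.H563.T4

/-- `m` is not zero and has at most `K` prime factors (with multiplicity), all larger than `y` -/
def AlmostPrime (K : ℕ) (y : ℝ) (m : ℕ) : Prop :=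
  m ≠ 0 ∧ ArithmeticFunction.cardFactors m ≤ K ∧ ∀ q : ℕ, q.Prime → q ∣ m → y < q

/-- the number `p` of the problem -/
def p (x y z w : ℕ) : ℕ := x ^ 2 + 3 * y ^ 2 + 5 * z ^ 2 + 7 * w ^ 2

theorem result :
    (∀ ε : ℝ, 0 < ε → ∃ K : ℕ, ∃ C : ℝ, 0 < C ∧ ∃ δ : ℝ, 0 < δ ∧ ∃ η : ℝ, 0 < η ∧ ∃ n₀ : ℕ,
      (∃ X : Set ℕ, (∀ t : ℕ, 1 ≤ t → ((X ∩ Set.Icc 1 t).ncard : ℝ) ≤ C * (t : ℝ) ^ (1 / 2 + ε)) ∧
        ∀ n : ℕ, n₀ ≤ n → Odd n → ∃ S : Finset (ℕ × ℕ × ℕ × ℕ), (n : ℝ) ^ η ≤ (S.card : ℝ) ∧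
          ∀ x y z w : ℕ, (x, y, z, w) ∈ S → (x ∈ X ∧ y ∈ X ∧ z ∈ X ∧ w ∈ X) ∧
            n = x ^ 2 + y ^ 2 + z ^ 2 + w ^ 2 ∧
            AlmostPrime K ((n : ℝ) ^ δ) (p x y z w) ∧ AlmostPrime K ((n : ℝ) ^ δ) (p x y z w - 2)) ∧
      (∃ X : Set ℕ, (∀ t : ℕ, 1 ≤ t → ((X ∩ Set.Icc 1 t).ncard : ℝ) ≤ C * (t : ℝ) ^ (1 / 2 + ε)) ∧
        (∀ v ∈ X, ∃ a m : ℕ, v = 2 ^ a * m ∧ AlmostPrime K ((v : ℝ) ^ δ) m) ∧
        ∀ n : ℕ, n₀ ≤ n → Odd n → n % 3 = 1 → ∃ S : Finset (ℕ × ℕ × ℕ × ℕ), (n : ℝ) ^ η ≤ (S.card : ℝ) ∧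
          ∀ x y z w : ℕ, (x, y, z, w) ∈ S → (x ∈ X ∧ y ∈ X ∧ z ∈ X ∧ w ∈ X) ∧
            n = x ^ 2 + y ^ 2 + z ^ 2 + w ^ 2 ∧
            AlmostPrime K ((n : ℝ) ^ δ) (p x y z w) ∧ AlmostPrime K ((n : ℝ) ^ δ) (p x y z w - 2))) ∧
    (∀ X : Set ℕ, (∃ n₁ : ℕ, ∀ n : ℕ, n₁ ≤ n → Odd n →
        ∃ x ∈ X, ∃ y ∈ X, ∃ z ∈ X, ∃ w ∈ X, n = x ^ 2 + y ^ 2 + z ^ 2 + w ^ 2) →
      ∃ t₀ : ℕ, ∀ t : ℕ, t₀ ≤ t → (t : ℝ) ^ (1 / 2 : ℝ) / 2 ≤ ((X ∩ Set.Icc 1 t).ncard : ℝ)) := by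
  constructor
  · intro ε hε
    set e : ℝ := min (ε / 2) (1 / 12) with he
    have he0 : 0 < e := by rw [he]; positivity
    have he1 : e ≤ 1 / 12 := min_le_right _ _
    have he2 : e ≤ ε / 2 := min_le_left _ _
    obtain ⟨K₁, δ₁, hδ₁, n₁, h₁⟩ := inputA (e / 8) (by positivity)
    obtain ⟨K₂, δ₂, hδ₂, n₂, h₂⟩ := inputB (e / 8) (by positivity)
    obtain ⟨X₁, ⟨C₁, hC₁, hX₁⟩, m₁, hm₁⟩ := thin 1 le_rfl _ (fun n => Odd n) e he0 he1 n₁ h₁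
    obtain ⟨X₂, ⟨C₂, hC₂, hX₂⟩, m₂, hm₂⟩ := thin 1 le_rfl _ (fun n => Odd n ∧ n % 3 = 1) e he0 he1 n₂ h₂
    have mono : ∀ (K K' : ℕ) (y y' : ℝ) (m : ℕ), K' ≤ K → y ≤ y' → AP K' y' m → AlmostPrime K y m := by
      rintro K K' y y' m hK hy ⟨a, b, c⟩
      exact ⟨a, b.trans hK, fun q hq hd => lt_of_le_of_lt hy (c q hq hd)⟩
    have hexp : ∀ t : ℕ, 1 ≤ t → (t : ℝ) ^ (1 / 2 + 2 * e) ≤ (t : ℝ) ^ (1 / 2 + ε) := by
      intro t ht
      exact Real.rpow_le_rpow_of_exponent_le (by exact_mod_cast ht) (by linarith)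
    have hC : ∀ (X : Set ℕ) (C' : ℝ), C' ≤ max C₁ C₂ →
        (∀ t : ℕ, 1 ≤ t → ((X ∩ Set.Icc 1 t).ncard : ℝ) ≤ C' * (t : ℝ) ^ (1 / 2 + 2 * e)) →
        ∀ t : ℕ, 1 ≤ t → ((X ∩ Set.Icc 1 t).ncard : ℝ) ≤ max C₁ C₂ * (t : ℝ) ^ (1 / 2 + ε) := by
      intro X C' hC' h t ht
      have h1 := h t ht
      have h2 := hexp t ht
      have h3 : 0 < (t : ℝ) ^ (1 / 2 + 2 * e) := by
        have : (0 : ℝ) < t := by exact_mod_cast ht
        positivity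
      have h4 : 0 < max C₁ C₂ := lt_of_lt_of_le hC₁ (le_max_left _ _)
      calc _ ≤ C' * (t : ℝ) ^ (1 / 2 + 2 * e) := h1
        _ ≤ max C₁ C₂ * (t : ℝ) ^ (1 / 2 + 2 * e) := by gcongr
        _ ≤ _ := by gcongr
    refine ⟨max K₁ K₂, max C₁ C₂, lt_of_lt_of_le hC₁ (le_max_left _ _), min δ₁ δ₂, lt_min hδ₁ hδ₂, e, he0,
      max m₁ m₂ + 1, ⟨X₁, hC X₁ C₁ (le_max_left _ _) hX₁, ?_⟩,
      ⟨X₂ ∩ {v | ∃ a m : ℕ, v = 2 ^ a * m ∧ AlmostPrime (max K₁ K₂) ((v : ℝ) ^ min δ₁ δ₂) m}, ?_, ?_, ?_⟩⟩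
    · intro n hn hodd
      have hn1 : (1 : ℝ) ≤ n := by exact_mod_cast (show 1 ≤ n by omega)
      have hd : (n : ℝ) ^ min δ₁ δ₂ ≤ (n : ℝ) ^ δ₁ := Real.rpow_le_rpow_of_exponent_le hn1 (min_le_left _ _)
      obtain ⟨S, hS1, hS2⟩ := hm₁ n (by have := le_max_left m₁ m₂; omega) hodd
      refine ⟨S, hS1, ?_⟩
      intro x y z w hq
      obtain ⟨g1, g2, g3, g4⟩ := hS2 (x, y, z, w) hq
      exact ⟨g1, by simpa using g2, mono _ _ _ _ _ (le_max_left _ _) hd g3,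
        mono _ _ _ _ _ (le_max_left _ _) hd g4⟩
    · apply hC _ C₂ (le_max_right _ _)
      intro t ht
      refine le_trans ?_ (hX₂ t ht)
      have : (X₂ ∩ {v | ∃ a m : ℕ, v = 2 ^ a * m ∧ AlmostPrime (max K₁ K₂) ((v : ℝ) ^ min δ₁ δ₂) m}) ∩
          Set.Icc 1 t ⊆ X₂ ∩ Set.Icc 1 t := fun v hv => ⟨hv.1.1, hv.2⟩
      exact_mod_cast Set.ncard_le_ncard this ((Set.finite_Icc 1 t).subset Set.inter_subset_right)
    · intro v hv
      exact hv.2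
    · intro n hn hodd hn3
      have hn1 : (1 : ℝ) ≤ n := by exact_mod_cast (show 1 ≤ n by omega)
      have hd : (n : ℝ) ^ min δ₁ δ₂ ≤ (n : ℝ) ^ δ₂ := Real.rpow_le_rpow_of_exponent_le hn1 (min_le_right _ _)
      obtain ⟨S, hS1, hS2⟩ := hm₂ n (by have := le_max_right m₁ m₂; omega) ⟨hodd, hn3⟩
      refine ⟨S, hS1, ?_⟩
      intro x y z w hq
      obtain ⟨⟨x1, x2, x3, x4⟩, g2, ⟨g3, g4⟩, o1, o2, o3, o4⟩ := hS2 (x, y, z, w) hq
      simp only [one_mul] at g2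
      have hop : ∀ v : ℕ, v ^ 2 ≤ n → OP K₂ ((n : ℝ) ^ δ₂) v →
          v ∈ {v : ℕ | ∃ a m : ℕ, v = 2 ^ a * m ∧ AlmostPrime (max K₁ K₂) ((v : ℝ) ^ min δ₁ δ₂) m} := by
        rintro v hv ⟨a, m, e1, e2⟩
        refine ⟨a, m, e1, mono _ _ _ _ _ (le_max_right _ _) ?_ e2⟩
        have hvn : v ≤ n := (Nat.le_self_pow two_ne_zero v).trans hv
        have : (v : ℝ) ^ min δ₁ δ₂ ≤ (n : ℝ) ^ min δ₁ δ₂ :=
          Real.rpow_le_rpow (by positivity) (by exact_mod_cast hvn) (lt_min hδ₁ hδ₂).le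
        exact this.trans hd
      exact ⟨⟨⟨x1, hop x (by omega) o1⟩, ⟨x2, hop y (by omega) o2⟩, ⟨x3, hop z (by omega) o3⟩,
        ⟨x4, hop w (by omega) o4⟩⟩, g2, mono _ _ _ _ _ (le_max_right _ _) hd g3,
        mono _ _ _ _ _ (le_max_right _ _) hd g4⟩
  · rintro X ⟨n₁, h⟩
    exact lower 1 X le_rfl n₁ (by
      intro n hn hodd
      obtain ⟨x, hx, y, hy, z, hz, w, hw, e⟩ := h n hn hodd
      exact ⟨x, hx, y, hy, z, hz, w, hw, by simpa using e⟩)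

end Pool.Agent.Results.MP_0ad054_nt.ThinSetOfVariables
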